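import Pool.Agent.H95.NV.Targets3

/-!
# CKE: the field exists (helper68, board nva_modules)
-/

set_option autoImplicit false

open NumberField

namespace Pool.Agent.H68.NV

open Pool.Agent.H95.NV NumberField

theorem pf_CKE (hEXK : T_EXK) (hBRK : T_BRK) : T_CKE := by
  intro k _ _ _ D
  by_cases h : Pool.Agent.H89.NV.tp D
  · obtain ⟨K, i1, i2, i3, i4, δ, hδ⟩ := hEXK k D h
    refine ⟨K, i1, i3, fun _ => ?_⟩
    obtain ⟨hh, -⟩ := (hBRK k K D).2 h i4 δ hδ
    exact ⟨hh⟩
  · exact ⟨k, inferInstance, inferInstance, fun h' => absurd h' h⟩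

end Pool.Agent.H68.NV
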